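import Mathlib

/-!
# The equation `σ(n) = rad(n)^2`: basic facts
-/

namespace Pool.Agent.Dek

open Finset

/-- the sum of the divisors of `p ^ a` for a prime `p` -/
def sp (p a : ℕ) : ℕ := ∑ k ∈ range (a + 1), p ^ k

/-- `n` is a solution of `σ(n) = rad(n)^2` -/
structure Sol (n : ℕ) : Prop where
  pos : 0 < n
  eq : ∏ p ∈ n.primeFactors, sp p (n.factorization p) = ∏ p ∈ n.primeFactors, p ^ 2

theorem sol_iff (n : ℕ) : Sol n ↔
    0 < n ∧ ArithmeticFunction.sigma 1 n = UniqueFactorizationMonoid.radical n ^ 2 := by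
  have key : 0 < n → ((∏ p ∈ n.primeFactors, sp p (n.factorization p) =
      ∏ p ∈ n.primeFactors, p ^ 2) ↔
      ArithmeticFunction.sigma 1 n = UniqueFactorizationMonoid.radical n ^ 2) := by
    intro hn
    rw [ArithmeticFunction.sigma_eq_prod_primeFactors_sum_range_factorization_pow_mul hn.ne',
      Nat.radical_eq_prod_primeFactors, ← prod_pow]
    simp [sp]
  exact ⟨fun h => ⟨h.pos, (key h.pos).1 h.eq⟩, fun h => ⟨h.1, (key h.1).2 h.2⟩⟩

theorem sp_pos (p a : ℕ) : 0 < sp p a := by
  unfold sp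
  rw [sum_range_succ']
  simp

theorem pow_lt_sp {p a : ℕ} (hp : 1 ≤ p) (ha : 1 ≤ a) : p ^ a < sp p a := by
  unfold sp
  rw [sum_range_succ]
  have : 0 < ∑ k ∈ range a, p ^ k := by
    refine sum_pos (fun k _ => pow_pos (by omega) k) ⟨0, by simp; omega⟩
  omega

/-- `sp p a ≡ a + 1 (mod 2)` for odd `p` -/
theorem sp_odd {p a : ℕ} (hp : Odd p) : Odd (sp p a) ↔ Even a := by
  induction a with
  | zero => simp [sp]
  | succ a ih =>
    have h1 : sp p (a + 1) = sp p a + p ^ (a + 1) := by
      unfold sp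
      rw [sum_range_succ]
    rw [h1, Nat.odd_add, ih, Nat.even_add_one]
    have h2 : ¬ Even (p ^ (a + 1)) := by
      rw [Nat.not_even_iff_odd]
      exact hp.pow
    simp [h2]

theorem sp_even {p a : ℕ} (hp : Odd p) : Even (sp p a) ↔ Odd a := by
  rw [← Nat.not_odd_iff_even, sp_odd hp, Nat.not_even_iff_odd]

theorem sp_two (p : ℕ) : sp p 2 = p ^ 2 + p + 1 := by
  simp [sp, sum_range_succ]
  ring

/-- There is no nonempty set of odd prime powers whose sigmas are composed of the same primes, each with total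
exponent at most `2`. -/
theorem no_closed {ι : Type*} (Z : Finset ι) (p a : ι → ℕ) (E : ι → ι → ℕ) (hne : Z.Nonempty)
    (hp : ∀ i ∈ Z, (p i).Prime) (h2 : ∀ i ∈ Z, p i ≠ 2) (ha : ∀ i ∈ Z, 1 ≤ a i)
    (he : ∀ i ∈ Z, sp (p i) (a i) = ∏ j ∈ Z, p j ^ E i j)
    (hcol : ∀ j ∈ Z, ∑ i ∈ Z, E i j ≤ 2) : False := by
  have hodd : ∀ i ∈ Z, Odd (p i) := fun i hi => (hp i hi).odd_of_ne_two (h2 i hi)
  have hev : ∀ i ∈ Z, 2 ≤ a i := by
    intro i hi
    have h3 : Odd (sp (p i) (a i)) := by
      rw [he i hi]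
      exact prod_induction _ Odd (fun _ _ => Odd.mul) odd_one fun j hj => (hodd j hj).pow
    rw [sp_odd (hodd i hi)] at h3
    obtain ⟨b, hb⟩ := h3
    have := ha i hi
    omega
  have h4 : ∏ i ∈ Z, sp (p i) (a i) ≤ ∏ i ∈ Z, p i ^ 2 := by
    rw [prod_congr rfl he, prod_comm]
    refine prod_le_prod' fun j hj => ?_
    rw [prod_pow_eq_pow_sum]
    exact Nat.pow_le_pow_right (hp j hj).pos (hcol j hj)
  have h5 : ∏ i ∈ Z, p i ^ 2 < ∏ i ∈ Z, sp (p i) (a i) := by
    refine prod_lt_prod_of_nonempty (fun i hi => pow_pos (hp i hi).pos 2) (fun i hi => ?_) hne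
    exact lt_of_le_of_lt (Nat.pow_le_pow_right (hp i hi).pos (hev i hi))
      (pow_lt_sp (hp i hi).pos (ha i hi))
  omega

/-- factorisation over a set that contains all the prime factors -/
theorem eq_prod_of_subset {m : ℕ} (hm : m ≠ 0) {S : Finset ℕ} (h : m.primeFactors ⊆ S) :
    m = ∏ r ∈ S, r ^ m.factorization r := by
  conv_lhs => rw [← Nat.prod_factorization_pow_eq_self hm]
  exact Finsupp.prod_of_support_subset _ (by simpa using h) _ (by simp)

namespace Sol

variable {n : ℕ}

/-- the prime factors of the sigmas of the prime powers divide `n` -/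
theorem mem (h : Sol n) {p r : ℕ} (hp : p ∈ n.primeFactors) (hr : r.Prime)
    (hd : r ∣ sp p (n.factorization p)) : r ∈ n.primeFactors := by
  have h1 : r ∣ ∏ p ∈ n.primeFactors, p ^ 2 := by
    rw [← h.eq]
    exact hd.trans (dvd_prod_of_mem (fun p => sp p (n.factorization p)) hp)
  obtain ⟨q, hq, hq'⟩ := (hr.prime.dvd_finsetProd_iff _).1 h1
  have h2 := hr.dvd_of_dvd_pow hq'
  rwa [(Nat.prime_dvd_prime_iff_eq hr (Nat.prime_of_mem_primeFactors hq)).1 h2]

/-- column sums -/
theorem col (h : Sol n) {r : ℕ} (hr : r ∈ n.primeFactors) :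
    ∑ p ∈ n.primeFactors, (sp p (n.factorization p)).factorization r = 2 := by
  have h1 := congrArg (fun m => m.factorization r) h.eq
  rw [Nat.factorization_prod (fun p _ => (sp_pos p _).ne'),
    Nat.factorization_prod (fun p hp => pow_ne_zero _ (Nat.prime_of_mem_primeFactors hp).ne_zero),
    Finsupp.finsetSum_apply, Finsupp.finsetSum_apply] at h1
  rw [h1]
  rw [sum_eq_single r]
  · rw [Nat.factorization_pow]
    simp [(Nat.prime_of_mem_primeFactors hr).factorization_self]
  · intro q hq hqr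
    rw [Nat.factorization_pow, Finsupp.smul_apply,
      Nat.factorization_eq_zero_of_not_dvd, smul_zero]
    intro hd
    exact hqr ((Nat.prime_dvd_prime_iff_eq (Nat.prime_of_mem_primeFactors hr)
      (Nat.prime_of_mem_primeFactors hq)).1 hd).symm
  · intro hh
    exact absurd hr hh

theorem one_le {p : ℕ} (hp : p ∈ n.primeFactors) : 1 ≤ n.factorization p :=
  (Nat.prime_of_mem_primeFactors hp).factorization_pos_of_dvd
    (Nat.mem_primeFactors.1 hp).2.2 (Nat.dvd_of_mem_primeFactors hp)

/-- the matrix of exponents -/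
theorem row (h : Sol n) {p : ℕ} (hp : p ∈ n.primeFactors) :
    sp p (n.factorization p) =
      ∏ r ∈ n.primeFactors, r ^ (sp p (n.factorization p)).factorization r := by
  refine eq_prod_of_subset (sp_pos _ _).ne' fun r hr => ?_
  exact h.mem hp (Nat.prime_of_mem_primeFactors hr) (Nat.dvd_of_mem_primeFactors hr)

/-- a solution larger than `1` is even -/
theorem two_mem (h : Sol n) (h1 : 1 < n) : 2 ∈ n.primeFactors := by
  by_contra h2
  refine no_closed n.primeFactors id n.factorization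
    (fun p r => (sp p (n.factorization p)).factorization r) ?_
    (fun p hp => Nat.prime_of_mem_primeFactors hp) ?_ (fun p hp => one_le hp)
    (fun p hp => h.row hp) (fun r hr => (h.col hr).le)
  · exact Nat.nonempty_primeFactors.2 h1
  · rintro p hp rfl
    exact h2 hp

end Sol

end Pool.Agent.Dek
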