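import Pool.Agent.Dek.Basic

/-!
# The equation `σ(n) = rad(n)^2`: comparison of two solutions with the same matrix of exponents
-/

namespace Pool.Agent.Dek

open Finset Real

/-- the data of a solution with `k` prime factors -/
structure Dat {k : ℕ} (p a : Fin k → ℕ) (E : Fin k → Fin k → ℕ) : Prop where
  prime : ∀ i, (p i).Prime
  apos : ∀ i, 1 ≤ a i
  row : ∀ i, sp (p i) (a i) = ∏ j, p j ^ E i j
  col : ∀ j, ∑ i, E i j = 2

/-- the logarithm of `σ(p^a) / p^a` -/
noncomputable def ep (p a : ℕ) : ℝ := log (sp p a) - a * log p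

theorem ep_nonneg {p a : ℕ} (hp : 2 ≤ p) : 0 ≤ ep p a := by
  have h0 : (0 : ℝ) < p := by positivity
  have h1 : ((p : ℝ)) ^ a ≤ sp p a := by
    have : p ^ a ≤ sp p a := by
      unfold sp
      rw [sum_range_succ]
      omega
    exact_mod_cast this
  have h2 := log_le_log (pow_pos h0 a) h1
  rw [log_pow] at h2
  unfold ep
  linarith

theorem ep_le {p a : ℕ} (hp : 2 ≤ p) : ep p a ≤ 2 / p := by
  have h0 : (2 : ℝ) ≤ p := by exact_mod_cast hp
  have h3 : ((p : ℝ) - 1) * sp p a = (p : ℝ) ^ (a + 1) - 1 := by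
    unfold sp
    push_cast
    rw [mul_comm]
    exact geom_sum_mul _ _
  have h4 : (0 : ℝ) < sp p a := by exact_mod_cast sp_pos p a
  have h5 : (sp p a : ℝ) ≤ (p : ℝ) ^ a * (p / (p - 1)) := by
    rw [mul_div_assoc', le_div_iff₀ (by linarith)]
    rw [mul_comm, h3, pow_succ]
    linarith
  have h6 := log_le_log h4 h5
  have h7 : (0 : ℝ) < (p : ℝ) / (p - 1) := div_pos (by linarith) (by linarith)
  rw [log_mul (pow_pos (by linarith) a).ne' h7.ne', log_pow] at h6
  have h8 := log_le_sub_one_of_pos h7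
  have h9 : (p : ℝ) / (p - 1) - 1 ≤ 2 / p := by
    rw [div_sub_one (by linarith), div_le_div_iff₀ (by linarith) (by linarith)]
    linarith
  unfold ep
  linarith

variable {k : ℕ} {p a p' a' : Fin k → ℕ} {E : Fin k → Fin k → ℕ}

/-- the logarithmic form of a row -/
theorem Dat.log_row (h : Dat p a E) (i : Fin k) :
    (a i : ℝ) * log (p i) + ep (p i) (a i) = ∑ j, (E i j : ℝ) * log (p j) := by
  have h1 := congrArg (fun m : ℕ => log (m : ℝ)) (h.row i)
  push_cast at h1
  rw [log_prod (fun j _ => pow_ne_zero _ (by exact_mod_cast (h.prime j).ne_zero))] at h1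
  simp only [log_pow] at h1
  unfold ep
  rw [← h1]
  ring

/-- Two solutions with the same matrix of exponents: impossible if every prime is either the same in both or much
larger in the second one (and large in the first one), not all the same, and every exponent is either the same in
both and at most `K` or much larger in the second one. -/
theorem compare {K : ℕ} (hK : 1 ≤ K) (h : Dat p a E) (h' : Dat p' a' E)
    (hp : ∀ i, p i = p' i ∨ (16 * (K + 1) ^ (k + 1) ≤ p' i ∧ p' i ^ 2 ≤ p i))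
    (ha : ∀ i, (a i = a' i ∧ a' i ≤ K) ∨ 2 * a' i + 1 ≤ a i) (hne : ∃ i, p i ≠ p' i) : False := by
  classical
  obtain ⟨U, hU⟩ : ∃ U : Finset (Fin k), U = univ.filter fun i => p i ≠ p' i := ⟨_, rfl⟩
  have memU : ∀ i, i ∈ U ↔ p i ≠ p' i := by
    intro i
    rw [hU, mem_filter]
    simp
  obtain ⟨i1, hi1⟩ := hne
  have hUne : U.Nonempty := ⟨i1, (memU _).2 hi1⟩
  obtain ⟨η, hη⟩ : ∃ η : ℝ, η = 2 / (16 * ((K : ℝ) + 1) ^ (k + 1)) := ⟨_, rfl⟩
  have hK0 : (1 : ℝ) ≤ K := by exact_mod_cast hK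
  have hη0 : 0 < η := by
    rw [hη]
    positivity
  -- logarithms
  have lam2 : ∀ i, log 2 ≤ log (p' i) := fun i =>
    log_le_log (by norm_num) (by exact_mod_cast (h'.prime i).two_le)
  have lam2' : ∀ i, log 2 ≤ log (p i) := fun i =>
    log_le_log (by norm_num) (by exact_mod_cast (h.prime i).two_le)
  have l2 : (0.69 : ℝ) < log 2 := by
    have := log_two_gt_d9
    linarith
  -- the ratio
  obtain ⟨i0, hi0, hmax⟩ := exists_max_image U (fun i => log (p i) / log (p' i)) hUne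
  obtain ⟨ρ, hρ⟩ : ∃ ρ : ℝ, ρ = log (p i0) / log (p' i0) := ⟨_, rfl⟩
  have hρ2 : 2 ≤ ρ := by
    have h1 := (hp i0).resolve_left ((memU _).1 hi0)
    have h2 : log ((p' i0 : ℝ) ^ 2) ≤ log (p i0) :=
      log_le_log (pow_pos (by exact_mod_cast (h'.prime i0).pos) 2) (by exact_mod_cast h1.2)
    rw [log_pow] at h2
    rw [hρ, le_div_iff₀ (by linarith [lam2 i0])]
    exact_mod_cast h2
  have hD : ∀ i ∈ U, log (p i) ≤ ρ * log (p' i) := by
    intro i hi
    have h1 := hmax i hi
    rw [← hρ, div_le_iff₀ (by linarith [lam2 i])] at h1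
    exact h1
  have hD0 : ρ * log (p' i0) - log (p i0) = 0 := by
    rw [hρ, div_mul_cancel₀ _ (by linarith [lam2 i0])]
    ring
  have hep : ∀ i ∈ U, ep (p' i) (a' i) ≤ η := by
    intro i hi
    have h1 := (hp i).resolve_left ((memU _).1 hi)
    refine (ep_le (h'.prime i).two_le).trans ?_
    rw [hη]
    refine div_le_div_of_nonneg_left (by norm_num) (by positivity) ?_
    exact_mod_cast h1.1
  -- the identity
  have key : ∀ i ∈ U, ((a i : ℝ) - a' i) * log (p i) +
      ∑ l ∈ U, (E i l : ℝ) * (ρ * log (p' l) - log (p l)) +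
        (ρ - 1) * ∑ l ∈ univ \ U, (E i l : ℝ) * log (p l) ≤
      (a' i : ℝ) * (ρ * log (p' i) - log (p i)) + ρ * η := by
    intro i hi
    have h1 := h.log_row i
    have h2 := h'.log_row i
    rw [← sum_sdiff (subset_univ U)] at h1 h2
    have h3 : ∑ l ∈ univ \ U, (E i l : ℝ) * log (p' l) = ∑ l ∈ univ \ U, (E i l : ℝ) * log (p l) := by
      refine sum_congr rfl fun l hl => ?_
      have : p l = p' l := by
        by_contra h4
        exact (mem_sdiff.1 hl).2 ((memU _).2 h4)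
      rw [this]
    have h4 : ∑ l ∈ U, (E i l : ℝ) * (ρ * log (p' l) - log (p l)) =
        ρ * ∑ l ∈ U, (E i l : ℝ) * log (p' l) - ∑ l ∈ U, (E i l : ℝ) * log (p l) := by
      rw [mul_sum, ← sum_sub_distrib]
      exact sum_congr rfl fun l _ => by ring
    rw [h3] at h2
    rw [h4]
    have h5 : ρ * ep (p' i) (a' i) ≤ ρ * η := mul_le_mul_of_nonneg_left (hep i hi) (by linarith)
    have h6 : 0 ≤ ep (p i) (a i) := ep_nonneg (h.prime i).two_le
    obtain ⟨S1, hS1⟩ : ∃ S1, S1 = ∑ l ∈ univ \ U, (E i l : ℝ) * log (p l) := ⟨_, rfl⟩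
    obtain ⟨S2, hS2⟩ : ∃ S2, S2 = ∑ l ∈ U, (E i l : ℝ) * log (p l) := ⟨_, rfl⟩
    obtain ⟨S3, hS3⟩ : ∃ S3, S3 = ∑ l ∈ U, (E i l : ℝ) * log (p' l) := ⟨_, rfl⟩
    rw [← hS1, ← hS2] at h1
    rw [← hS1, ← hS3] at h2
    rw [← hS1, ← hS2, ← hS3]
    have h7 : ρ * ((a' i : ℝ) * log (p' i) + ep (p' i) (a' i)) = ρ * (S1 + S3) := by rw [h2]
    nlinarith
  -- the sets
  obtain ⟨δ, hδ⟩ : ∃ δ : ℕ → ℝ, δ = fun j => ((K : ℝ) + 1) ^ j * η := ⟨_, rfl⟩
  have hδs : ∀ j, K * δ j + η ≤ δ (j + 1) := by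
    intro j
    rw [hδ]
    simp only
    have h1 : (1 : ℝ) ≤ (K + 1) ^ j := one_le_pow₀ (by linarith)
    have h2 : η ≤ (K + 1) ^ j * η := le_mul_of_one_le_left hη0.le h1
    rw [pow_succ]
    nlinarith
  have hδm : ∀ j, δ j ≤ δ (j + 1) := by
    intro j
    have h1 := hδs j
    have h2 : 0 ≤ δ j := by
      rw [hδ]
      positivity
    nlinarith
  have hδ0 : ∀ j, 0 < δ j := by
    intro j
    rw [hδ]
    positivity
  have hδk : ∀ j ≤ k + 1, δ j ≤ 1 / 8 := by
    intro j hj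
    have h1 : δ (k + 1) = 1 / 8 := by
      rw [hδ, hη]
      simp only
      field_simp
      norm_num
    rw [← h1]
    exact monotone_nat_of_le_succ hδm hj
  obtain ⟨Z, hZ⟩ : ∃ Z : ℕ → Finset (Fin k), Z = fun j =>
    U.filter fun i => ρ * log (p' i) - log (p i) ≤ δ j * ρ := ⟨_, rfl⟩
  have memZ : ∀ j i, i ∈ Z j ↔ i ∈ U ∧ ρ * log (p' i) - log (p i) ≤ δ j * ρ := by
    intro j i
    rw [hZ]
    simp
  have Zmono : ∀ j, Z j ⊆ Z (j + 1) := by
    intro j i hi
    rw [memZ] at hi ⊢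
    exact ⟨hi.1, hi.2.trans (mul_le_mul_of_nonneg_right (hδm j) (by linarith))⟩
  have Zne : ∀ j, i0 ∈ Z j := by
    intro j
    rw [memZ, hD0]
    exact ⟨hi0, mul_nonneg (hδ0 j).le (by linarith)⟩
  -- the main step
  have step : ∀ j ≤ k, ∀ i ∈ Z j, ∀ l, E i l ≠ 0 → l ∈ Z (j + 1) := by
    intro j hj i hi l hl
    rw [memZ] at hi
    obtain ⟨hiU, hiD⟩ := hi
    have h1 := key i hiU
    have h2 : 0 ≤ ρ * log (p' i) - log (p i) := sub_nonneg.2 (hD i hiU)
    have h3 : 0 ≤ ∑ l ∈ U, (E i l : ℝ) * (ρ * log (p' l) - log (p l)) :=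
      sum_nonneg fun l hl => mul_nonneg (Nat.cast_nonneg _) (sub_nonneg.2 (hD l hl))
    have h4 : 0 ≤ ∑ l ∈ univ \ U, (E i l : ℝ) * log (p l) :=
      sum_nonneg fun l _ => mul_nonneg (Nat.cast_nonneg _) (by linarith [lam2' l])
    have h4' : 0 ≤ (ρ - 1) * ∑ l ∈ univ \ U, (E i l : ℝ) * log (p l) :=
      mul_nonneg (by linarith) h4
    have hδj := hδk j (by omega)
    have hη1 : η ≤ 1 / 8 := by
      have h5 := hδs j
      have h6 := hδk (j + 1) (by omega)
      have h7 : 0 ≤ K * δ j := mul_nonneg (by linarith) (hδ0 j).le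
      linarith
    have haa : a i = a' i ∧ a' i ≤ K := by
      refine (ha i).resolve_right fun h5 => ?_
      have h6 : (a' i : ℝ) + 1 ≤ (a i : ℝ) - a' i := by
        have : (2 : ℝ) * a' i + 1 ≤ a i := by exact_mod_cast h5
        linarith
      have h7 : ρ * (log (p' i) - δ j) ≤ log (p i) := by linarith
      have h8 : (0 : ℝ) ≤ a' i := Nat.cast_nonneg _
      have h9 : ((a' i : ℝ) + 1) * (ρ * (log (p' i) - δ j)) ≤ ((a i : ℝ) - a' i) * log (p i) := by
        refine mul_le_mul h6 h7 ?_ (by linarith)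
        exact mul_nonneg (by linarith) (by linarith [lam2 i])
      have h10 : (a' i : ℝ) * (ρ * log (p' i) - log (p i)) ≤ a' i * (δ j * ρ) :=
        mul_le_mul_of_nonneg_left hiD h8
      have h11 : ((a' i : ℝ) + 1) * (ρ * (log (p' i) - δ j)) ≤ a' i * (δ j * ρ) + ρ * η := by
        linarith
      have h12 : ρ * (((a' i : ℝ) + 1) * (log (p' i) - δ j) - a' i * δ j - η) ≤ 0 := by
        linarith
      have h13 : 0 < ((a' i : ℝ) + 1) * (log (p' i) - δ j) - a' i * δ j - η := by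
        have h14 : (0.5 : ℝ) ≤ log (p' i) - δ j := by linarith [lam2 i]
        have h15 : ((a' i : ℝ) + 1) * 0.5 ≤ ((a' i : ℝ) + 1) * (log (p' i) - δ j) :=
          mul_le_mul_of_nonneg_left h14 (by linarith)
        have h16 : (a' i : ℝ) * δ j ≤ a' i * (1 / 8) := mul_le_mul_of_nonneg_left hδj h8
        linarith
      have h14 : 0 < ρ * (((a' i : ℝ) + 1) * (log (p' i) - δ j) - a' i * δ j - η) :=
        mul_pos (by linarith) h13
      linarith
    have hK1 : (a' i : ℝ) ≤ K := by exact_mod_cast haa.2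
    have h5 : (a' i : ℝ) * (ρ * log (p' i) - log (p i)) + ρ * η ≤ ρ * δ (j + 1) := by
      have h6 : (a' i : ℝ) * (ρ * log (p' i) - log (p i)) ≤ K * (δ j * ρ) :=
        mul_le_mul hK1 hiD h2 (by linarith)
      have h7 := mul_le_mul_of_nonneg_left (hδs j) (by linarith : (0 : ℝ) ≤ ρ)
      linarith
    have h6 : ((a i : ℝ) - a' i) * log (p i) = 0 := by rw [haa.1]; ring
    rw [h6, zero_add] at h1
    have hδj1 := hδk (j + 1) (by omega)
    have hEl : (1 : ℝ) ≤ E i l := by exact_mod_cast Nat.one_le_iff_ne_zero.2 hl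
    have hlU : l ∈ U := by
      by_contra hlU
      have h7 : (E i l : ℝ) * log (p l) ≤ ∑ l ∈ univ \ U, (E i l : ℝ) * log (p l) :=
        single_le_sum (f := fun l => (E i l : ℝ) * log (p l))
          (fun m _ => mul_nonneg (Nat.cast_nonneg _) (by linarith [lam2' m]))
          (mem_sdiff.2 ⟨mem_univ l, hlU⟩)
      have h8 : log 2 ≤ (E i l : ℝ) * log (p l) := by
        have := lam2' l
        nlinarith
      have h9 : (ρ - 1) * log 2 ≤ (ρ - 1) * ∑ l ∈ univ \ U, (E i l : ℝ) * log (p l) :=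
        mul_le_mul_of_nonneg_left (h8.trans h7) (by linarith)
      have h10 : ρ * δ (j + 1) ≤ ρ * (1 / 8) := mul_le_mul_of_nonneg_left hδj1 (by linarith)
      have h11 : (ρ - 1) * 0.69 ≤ (ρ - 1) * log 2 := mul_le_mul_of_nonneg_left l2.le (by linarith)
      linarith
    rw [memZ]
    refine ⟨hlU, ?_⟩
    have h7 : (E i l : ℝ) * (ρ * log (p' l) - log (p l)) ≤
        ∑ l ∈ U, (E i l : ℝ) * (ρ * log (p' l) - log (p l)) :=
      single_le_sum (f := fun l => (E i l : ℝ) * (ρ * log (p' l) - log (p l)))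
        (fun m hm => mul_nonneg (Nat.cast_nonneg _) (sub_nonneg.2 (hD m hm))) hlU
    have h8 : 0 ≤ ρ * log (p' l) - log (p l) := sub_nonneg.2 (hD l hlU)
    have h9 : ρ * log (p' l) - log (p l) ≤ (E i l : ℝ) * (ρ * log (p' l) - log (p l)) :=
      le_mul_of_one_le_left h8 hEl
    linarith
  -- a closed set
  have hcl : ∃ j ≤ k, Z (j + 1) = Z j := by
    by_contra hcon
    push Not at hcon
    have h1 : ∀ j ≤ k + 1, j ≤ (Z j).card := by
      intro j
      induction j with
      | zero => intro _; exact Nat.zero_le _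
      | succ j ih =>
        intro hj
        have h2 := ih (by omega)
        have h3 : Z j ⊂ Z (j + 1) :=
          Finset.ssubset_iff_subset_ne.2 ⟨Zmono j, fun h4 => hcon j (by omega) h4.symm⟩
        have h4 := card_lt_card h3
        omega
    have h2 := h1 (k + 1) le_rfl
    have h3 := card_le_univ (Z (k + 1))
    rw [Fintype.card_fin] at h3
    omega
  obtain ⟨j, hj, hjZ⟩ := hcl
  refine no_closed (Z j) p' a' E ⟨i0, Zne j⟩ (fun i _ => h'.prime i) ?_ (fun i _ => h'.apos i) ?_ ?_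
  · intro i hi h2
    have h1 := (hp i).resolve_left ((memU _).1 ((memZ _ _).1 hi).1)
    rw [h2] at h1
    have h3 : 1 ≤ (K + 1) ^ (k + 1) := Nat.one_le_pow _ _ (by omega)
    omega
  · intro i hi
    rw [h'.row i]
    symm
    refine prod_subset (subset_univ _) fun l _ hl => ?_
    have h1 : E i l = 0 := by
      by_contra h2
      have h3 := step j hj i hi l h2
      rw [hjZ] at h3
      exact hl h3
    rw [h1, pow_zero]
  · intro l _
    rw [← h'.col l]
    exact sum_le_sum_of_subset (subset_univ _)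

end Pool.Agent.Dek
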