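import Pool.Agent.Dek.Basic

/-!
# The equation `σ(n) = rad(n)^2`: the number of prime factors is bounded in terms of the number of fourth powers
-/

namespace Pool.Agent.Dek

open Finset

/-- odd primes whose fourth power divides `n` -/
def F4 (n : ℕ) : Finset ℕ := n.primeFactors.filter fun p => p ≠ 2 ∧ p ^ 4 ∣ n

/-- odd primes with odd exponent -/
def OO (n : ℕ) : Finset ℕ := n.primeFactors.filter fun p => p ≠ 2 ∧ Odd (n.factorization p)

/-- primes `= 1 (mod 3)` with exponent `2` -/
def TT (n : ℕ) : Finset ℕ := n.primeFactors.filter fun p => p % 3 = 1 ∧ n.factorization p = 2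

/-- primes `= 2 (mod 3)` with exponent `2` -/
def QQ (n : ℕ) : Finset ℕ := n.primeFactors.filter fun p =>
  p ≠ 2 ∧ p % 3 = 2 ∧ n.factorization p = 2

variable {n : ℕ}

/-- at most `2` elements of a set of primes have a sigma divisible by `r` -/
theorem card_le_two (h : Sol n) {r : ℕ} (hr : r.Prime) {S : Finset ℕ} (hS : S ⊆ n.primeFactors)
    (hd : ∀ p ∈ S, r ∣ sp p (n.factorization p)) : S.card ≤ 2 := by
  rcases S.eq_empty_or_nonempty with rfl | ⟨q, hq⟩
  · simp
  have hrm : r ∈ n.primeFactors := h.mem (hS hq) hr (hd q hq)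
  have h1 : ∑ p ∈ S, 1 ≤ ∑ p ∈ S, (sp p (n.factorization p)).factorization r := by
    refine sum_le_sum fun p hp => ?_
    exact hr.factorization_pos_of_dvd (sp_pos _ _).ne' (hd p hp)
  have h2 : ∑ p ∈ S, (sp p (n.factorization p)).factorization r ≤
      ∑ p ∈ n.primeFactors, (sp p (n.factorization p)).factorization r :=
    sum_le_sum_of_subset hS
  rw [h.col hrm] at h2
  simpa using h1.trans h2

theorem card_OO (h : Sol n) : (OO n).card ≤ 2 := by
  refine card_le_two h Nat.prime_two (filter_subset _ _) fun p hp => ?_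
  obtain ⟨h1, h2, h3⟩ := mem_filter.1 hp
  exact ((sp_even ((Nat.prime_of_mem_primeFactors h1).odd_of_ne_two h2)).2 h3).two_dvd

theorem card_TT (h : Sol n) : (TT n).card ≤ 2 := by
  refine card_le_two h Nat.prime_three (filter_subset _ _) fun p hp => ?_
  obtain ⟨h1, h2, h3⟩ := mem_filter.1 hp
  rw [h3, sp_two, Nat.dvd_iff_mod_eq_zero, Nat.add_mod, Nat.add_mod (p ^ 2), Nat.pow_mod, h2]

/-- prime factors of `q ^ 2 + q + 1` for `q = 2 (mod 3)` are `1 (mod 3)` -/
theorem mod_three {q r : ℕ} (hq : q % 3 = 2) (hr : r.Prime) (hd : r ∣ q ^ 2 + q + 1) :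
    r % 3 = 1 := by
  have h3 : r ≠ 3 := by
    rintro rfl
    rw [Nat.dvd_iff_mod_eq_zero, Nat.add_mod, Nat.add_mod (q ^ 2), Nat.pow_mod, hq] at hd
    simp at hd
  have : Fact r.Prime := ⟨hr⟩
  have h1 : ((q : ZMod r) ^ 2 + q + 1) = 0 := by
    have := (ZMod.natCast_eq_zero_iff (q ^ 2 + q + 1) r).2 hd
    push_cast at this
    exact this
  have h2 : (q : ZMod r) ^ 3 = 1 := by linear_combination ((q : ZMod r) - 1) * h1
  have h4 : (q : ZMod r) ≠ 1 := by
    intro h5
    rw [h5] at h1
    have h6 : ((3 : ℕ) : ZMod r) = 0 := by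
      push_cast
      linear_combination h1
    have h7 := (ZMod.natCast_eq_zero_iff 3 r).1 h6
    exact h3 ((Nat.prime_dvd_prime_iff_eq hr Nat.prime_three).1 h7)
  have h5 : orderOf (q : ZMod r) = 3 := orderOf_eq_prime h2 h4
  have h6 : (q : ZMod r) ≠ 0 := by
    intro h7
    rw [h7] at h2
    simp at h2
  have h7 : orderOf (q : ZMod r) ∣ r - 1 := ZMod.orderOf_dvd_card_sub_one h6
  rw [h5] at h7
  have := hr.two_le
  omega

theorem card_QQ (h : Sol n) : (QQ n).card ≤ 2 * (F4 n ∪ OO n ∪ TT n).card := by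
  refine card_le_mul_card_image_of_maps_to (f := fun q => (q ^ 2 + q + 1).minFac) ?_ 2 ?_
  · intro q hq
    obtain ⟨h1, h2, h3, h4⟩ := mem_filter.1 hq
    have hr : (q ^ 2 + q + 1).minFac.Prime := Nat.minFac_prime (by
      have := (Nat.prime_of_mem_primeFactors h1).two_le
      nlinarith)
    have hd : (q ^ 2 + q + 1).minFac ∣ q ^ 2 + q + 1 := Nat.minFac_dvd _
    obtain ⟨r, hrr⟩ : ∃ r, r = (q ^ 2 + q + 1).minFac := ⟨_, rfl⟩
    rw [← hrr] at hr hd
    have h5 : r % 3 = 1 := mod_three h3 hr hd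
    have h6 : r ∈ n.primeFactors := h.mem h1 hr (by rw [h4, sp_two]; exact hd)
    have h7 : r ≠ 2 := by
      rintro rfl
      omega
    change (q ^ 2 + q + 1).minFac ∈ _
    rw [← hrr, mem_union, mem_union]
    have h8 := Sol.one_le h6
    by_cases h9 : Odd (n.factorization r)
    · exact Or.inl (Or.inr (mem_filter.2 ⟨h6, h7, h9⟩))
    · by_cases h10 : n.factorization r = 2
      · exact Or.inr (mem_filter.2 ⟨h6, h5, h10⟩)
      · refine Or.inl (Or.inl (mem_filter.2 ⟨h6, h7, ?_⟩))
        rw [Nat.not_odd_iff_even] at h9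
        obtain ⟨b, hb⟩ := h9
        exact (hr.pow_dvd_iff_le_factorization h.pos.ne').2 (by omega)
  · intro r hr
    by_cases hrp : r.Prime
    · refine card_le_two h hrp (fun q hq => (mem_filter.1 (mem_filter.1 hq).1).1) fun q hq => ?_
      obtain ⟨h1, h2⟩ := mem_filter.1 hq
      obtain ⟨-, -, -, h4⟩ := mem_filter.1 h1
      rw [h4, sp_two, ← h2]
      exact Nat.minFac_dvd _
    · rw [card_eq_zero.2 (filter_eq_empty_iff.2 fun q hq h2 => ?_)]
      · omega
      · apply hrp
        rw [← h2]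
        refine Nat.minFac_prime ?_
        have := (Nat.prime_of_mem_primeFactors (mem_filter.1 hq).1).two_le
        nlinarith

/-- the number of prime factors -/
theorem card_primeFactors (h : Sol n) : n.primeFactors.card ≤ 3 * (F4 n).card + 14 := by
  have h1 : n.primeFactors ⊆ {2, 3} ∪ (F4 n ∪ OO n ∪ TT n) ∪ QQ n := by
    intro r hr
    by_cases h2 : r = 2
    · simp [h2]
    by_cases h3 : r = 3
    · simp [h3]
    have hp := Nat.prime_of_mem_primeFactors hr
    have h8 := Sol.one_le hr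
    by_cases h9 : Odd (n.factorization r)
    · simp only [mem_union]
      exact Or.inl (Or.inr (Or.inl (Or.inr (mem_filter.2 ⟨hr, h2, h9⟩))))
    by_cases h10 : n.factorization r = 2
    · have h11 : r % 3 ≠ 0 := by
        intro h12
        exact h3 ((Nat.prime_dvd_prime_iff_eq Nat.prime_three hp).1
          (Nat.dvd_of_mod_eq_zero h12)).symm
      simp only [mem_union]
      by_cases h12 : r % 3 = 1
      · exact Or.inl (Or.inr (Or.inr (mem_filter.2 ⟨hr, h12, h10⟩)))
      · exact Or.inr (mem_filter.2 ⟨hr, h2, by omega, h10⟩)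
    · simp only [mem_union]
      refine Or.inl (Or.inr (Or.inl (Or.inl (mem_filter.2 ⟨hr, h2, ?_⟩))))
      rw [Nat.not_odd_iff_even] at h9
      obtain ⟨b, hb⟩ := h9
      exact (hp.pow_dvd_iff_le_factorization h.pos.ne').2 (by omega)
  have h2 := card_le_card h1
  have h3 := card_union_le ({2, 3} ∪ (F4 n ∪ OO n ∪ TT n)) (QQ n)
  have h4 := card_union_le ({2, 3} : Finset ℕ) (F4 n ∪ OO n ∪ TT n)
  have h5 := card_union_le (F4 n ∪ OO n) (TT n)
  have h6 := card_union_le (F4 n) (OO n)
  have h7 := card_QQ h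
  have h8 := card_OO h
  have h9 := card_TT h
  have h10 : ({2, 3} : Finset ℕ).card = 2 := rfl
  omega

end Pool.Agent.Dek
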