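import Pool.Agent.Dek.Compare
import Pool.Agent.Dek.Count

/-!
# The equation `σ(n) = rad(n)^2`: finiteness for a bounded number of fourth powers
-/

namespace Pool.Agent.Dek

open Finset Filter

/-- the data of a solution -/
theorem Sol.dat {n k : ℕ} (h : Sol n) (hk : n.primeFactors.card = k) :
    ∃ (p a : Fin k → ℕ) (E : Fin k → Fin k → ℕ), Dat p a E ∧ n ≤ ∏ i, p i ^ 2 := by
  obtain ⟨e⟩ : Nonempty (Fin k ≃ n.primeFactors) := ⟨(n.primeFactors.equivFinOfCardEq hk).symm⟩
  have hprod : ∀ f : ℕ → ℕ, ∏ i : Fin k, f (e i) = ∏ q ∈ n.primeFactors, f q := by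
    intro f
    rw [e.prod_comp (fun q : n.primeFactors => f q)]
    exact prod_coe_sort _ _
  have hsum : ∀ f : ℕ → ℕ, ∑ i : Fin k, f (e i) = ∑ q ∈ n.primeFactors, f q := by
    intro f
    rw [e.sum_comp (fun q : n.primeFactors => f q)]
    exact sum_coe_sort _ _
  refine ⟨fun i => e i, fun i => n.factorization (e i),
    fun i j => (sp (e i) (n.factorization (e i))).factorization (e j), ⟨?_, ?_, ?_, ?_⟩, ?_⟩
  · exact fun i => Nat.prime_of_mem_primeFactors (e i).2
  · exact fun i => Sol.one_le (e i).2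
  · intro i
    rw [hprod fun r => r ^ (sp (e i) (n.factorization (e i))).factorization r]
    exact h.row (e i).2
  · intro j
    rw [hsum fun q => (sp q (n.factorization q)).factorization (e j)]
    exact h.col (e j).2
  · rw [hprod fun r => r ^ 2, ← h.eq]
    conv_lhs => rw [← Nat.prod_factorization_pow_eq_self h.pos.ne']
    rw [Finsupp.prod, Nat.support_factorization]
    refine prod_le_prod' fun p hp => ?_
    exact (pow_lt_sp (Nat.prime_of_mem_primeFactors hp).pos (Sol.one_le hp)).le

/-- a monotone sequence of natural numbers is eventually constant or tends to infinity -/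
theorem mono_dich {u : ℕ → ℕ} (hu : Monotone u) :
    (∃ c, ∀ᶠ t in atTop, u t = c) ∨ Tendsto u atTop atTop := by
  rcases tendsto_atTop_of_monotone hu with h | ⟨l, hl⟩
  · exact Or.inr h
  · left
    refine ⟨l, ?_⟩
    rw [nhds_discrete] at hl
    exact tendsto_pure.1 hl

/-- there are only finitely many solutions with `k` prime factors -/
theorem finite_omega (k : ℕ) : {n | Sol n ∧ n.primeFactors.card = k}.Finite := by
  by_contra hinf
  obtain ⟨f, hf⟩ : ∃ f : ℕ → ℕ, f = fun t =>
    ((Set.Infinite.natEmbedding _ hinf t : {n | Sol n ∧ n.primeFactors.card = k}) : ℕ) := ⟨_, rfl⟩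
  have hfinj : Function.Injective f := by
    rw [hf]
    exact Subtype.val_injective.comp (Set.Infinite.natEmbedding _ hinf).injective
  have hfmem : ∀ t, Sol (f t) ∧ (f t).primeFactors.card = k := by
    intro t
    rw [hf]
    exact (Set.Infinite.natEmbedding _ hinf t).2
  choose P A E hdat hle using fun t => (hfmem t).1.dat (hfmem t).2
  obtain ⟨g, hg⟩ := (wellQuasiOrdered_le (α := (Fin k → ℕ) × (Fin k → ℕ) ×
    (Fin k → Fin k → ℕ))).exists_monotone_subseq (fun t => (P t, A t, E t))
  have hmono : Monotone fun t => (P (g t), A (g t), E (g t)) := fun s t hst => hg s t hst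
  have hP : ∀ i, Monotone fun t => P (g t) i := fun i s t hst => (hmono hst).1 i
  have hA : ∀ i, Monotone fun t => A (g t) i := fun i s t hst => (hmono hst).2.1 i
  have hE : ∀ i j, Monotone fun t => E (g t) i j := fun i j s t hst => (hmono hst).2.2 i j
  have hE2 : ∀ t i j, E t i j ≤ 2 := by
    intro t i j
    rw [← (hdat t).col j]
    exact single_le_sum (f := fun i => E t i j) (fun _ _ => Nat.zero_le _) (mem_univ i)
  -- the matrix is eventually constant
  have cE : ∀ᶠ s in atTop, ∀ᶠ t in atTop, E (g t) = E (g s) := by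
    have h1 : ∀ i j, ∃ c, ∀ᶠ t in atTop, E (g t) i j = c := by
      intro i j
      rcases mono_dich (hE i j) with h2 | h2
      · exact h2
      · exfalso
        obtain ⟨t, ht⟩ := (h2.eventually_gt_atTop 2).exists
        have := hE2 (g t) i j
        omega
    choose c hc using h1
    have h2 : ∀ᶠ t in atTop, ∀ i j, E (g t) i j = c i j :=
      eventually_all.2 fun i => eventually_all.2 fun j => hc i j
    refine h2.mono fun s hs => h2.mono fun t ht => ?_
    funext i j
    rw [hs, ht]
  -- exponents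
  have cA : ∃ K, 1 ≤ K ∧ ∀ᶠ s in atTop, ∀ᶠ t in atTop, ∀ i,
      (A (g t) i = A (g s) i ∧ A (g s) i ≤ K) ∨ 2 * A (g s) i + 1 ≤ A (g t) i := by
    have h1 : ∀ i, ∃ K, ∀ᶠ s in atTop, ∀ᶠ t in atTop,
        (A (g t) i = A (g s) i ∧ A (g s) i ≤ K) ∨ 2 * A (g s) i + 1 ≤ A (g t) i := by
      intro i
      rcases mono_dich (hA i) with ⟨c, h2⟩ | h2
      · refine ⟨c, h2.mono fun s hs => h2.mono fun t ht => Or.inl ⟨?_, ?_⟩⟩
        · rw [hs, ht]
        · exact hs.le
      · exact ⟨0, Eventually.of_forall fun s =>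
          (h2.eventually_ge_atTop (2 * A (g s) i + 1)).mono fun t ht => Or.inr ht⟩
    choose K hK using h1
    refine ⟨1 + ∑ i, K i, by omega, ?_⟩
    have h2 : ∀ᶠ s in atTop, ∀ i, ∀ᶠ t in atTop,
        (A (g t) i = A (g s) i ∧ A (g s) i ≤ K i) ∨ 2 * A (g s) i + 1 ≤ A (g t) i :=
      eventually_all.2 hK
    refine h2.mono fun s hs => eventually_all.2 fun i => (hs i).mono fun t ht => ?_
    refine ht.imp_left fun h3 => ⟨h3.1, h3.2.trans ?_⟩
    have h4 : K i ≤ ∑ i, K i := single_le_sum (fun _ _ => Nat.zero_le _) (mem_univ i)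
    omega
  obtain ⟨K, hK1, hK⟩ := cA
  -- primes
  have cP : ∀ M, ∀ᶠ s in atTop, ∀ᶠ t in atTop, ∀ i,
      P (g t) i = P (g s) i ∨ (M ≤ P (g s) i ∧ P (g s) i ^ 2 ≤ P (g t) i) := by
    intro M
    have h1 : ∀ i, ∀ᶠ s in atTop, ∀ᶠ t in atTop,
        P (g t) i = P (g s) i ∨ (M ≤ P (g s) i ∧ P (g s) i ^ 2 ≤ P (g t) i) := by
      intro i
      rcases mono_dich (hP i) with ⟨c, h2⟩ | h2
      · refine h2.mono fun s hs => h2.mono fun t ht => Or.inl ?_
        rw [hs, ht]
      · exact (h2.eventually_ge_atTop M).mono fun s hs =>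
          (h2.eventually_ge_atTop (P (g s) i ^ 2)).mono fun t ht => Or.inr ⟨hs, ht⟩
    exact (eventually_all.2 h1).mono fun s hs => eventually_all.2 hs
  -- some prime tends to infinity
  have cN : ∀ s, ∀ᶠ t in atTop, ∃ i, P (g t) i ≠ P (g s) i := by
    have h1 : ∃ i, Tendsto (fun t => P (g t) i) atTop atTop := by
      by_contra hcon
      push Not at hcon
      have h2 : ∀ i, ∃ c, ∀ᶠ t in atTop, P (g t) i = c := fun i =>
        (mono_dich (hP i)).resolve_right (hcon i)
      choose c hc using h2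
      have h3 : ∀ᶠ t in atTop, f (g t) ≤ ∏ i, c i ^ 2 := by
        refine (eventually_all.2 hc).mono fun t ht => ?_
        have h4 := hle (g t)
        rwa [prod_congr rfl fun i _ => by rw [ht i]] at h4
      have h4 : Tendsto (fun t => f (g t)) atTop atTop := by
        rw [← Nat.cofinite_eq_atTop]
        exact (hfinj.comp g.injective).tendsto_cofinite
      obtain ⟨t, ht1, ht2⟩ := (h3.and (h4.eventually_gt_atTop (∏ i, c i ^ 2))).exists
      omega
    obtain ⟨i, hi⟩ := h1
    exact fun s => (hi.eventually_gt_atTop (P (g s) i)).mono fun t ht => ⟨i, ht.ne'⟩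
  obtain ⟨s, h1, h2, h3⟩ := (cE.and (hK.and (cP (16 * (K + 1) ^ (k + 1))))).exists
  obtain ⟨t, h4, h5, h6, h7⟩ := (h1.and (h2.and (h3.and (cN s)))).exists
  have hd := hdat (g t)
  rw [h4] at hd
  exact compare hK1 hd (hdat (g s)) h6 h5 h7

/-- For every `h` there are only finitely many solutions that are divisible by the fourth power of at most `h` odd
primes. -/
theorem finite_fourth (h : ℕ) : {n | Sol n ∧ (F4 n).card ≤ h}.Finite := by
  refine Set.Finite.subset (Set.Finite.biUnion (Set.finite_Iic (3 * h + 14))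
    fun k _ => finite_omega k) ?_
  rintro n ⟨h1, h2⟩
  simp only [Set.mem_iUnion, Set.mem_Iic, exists_prop, Set.mem_ofPred_eq]
  exact ⟨n.primeFactors.card, (card_primeFactors h1).trans (by omega), h1, rfl⟩

end Pool.Agent.Dek
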