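import Pool.Agent.Dek.Sing
import Pool.Agent.Dek.Finite

/-!
# The equation `σ(n) = rad(n)^2`: an explicit bound in terms of the number of fourth powers
-/

namespace Pool.Agent.Dek

open Finset Real

theorem num_one {k G : ℕ} (hk : 1 ≤ k) (hG : (4 * k) ^ (2 * k + 4) ≤ G) :
    16 * (2 * k * G + 1) ^ (k + 1) ≤ G ^ (k + 2) := by
  have hG1 : 1 ≤ G := le_trans (Nat.one_le_pow _ _ (by omega)) hG
  have hkG : 1 ≤ k * G := Nat.mul_pos (by omega) (by omega)
  calc 16 * (2 * k * G + 1) ^ (k + 1) ≤ 16 * (3 * k * G) ^ (k + 1) := by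
        refine Nat.mul_le_mul_left _ (Nat.pow_le_pow_left ?_ _)
        nlinarith
    _ = (16 * (3 * k) ^ (k + 1)) * G ^ (k + 1) := by rw [mul_pow]; ring
    _ ≤ ((4 * k) ^ 2 * (4 * k) ^ (k + 1)) * G ^ (k + 1) := by
        refine Nat.mul_le_mul_right _ (Nat.mul_le_mul ?_ (Nat.pow_le_pow_left (by omega) _))
        have : 4 ^ 2 ≤ (4 * k) ^ 2 := Nat.pow_le_pow_left (by omega) 2
        omega
    _ ≤ G * G ^ (k + 1) := by
        refine Nat.mul_le_mul_right _ (le_trans ?_ hG)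
        rw [← pow_add]
        exact Nat.pow_le_pow_right (by omega) (by omega)
    _ = G ^ (k + 2) := by ring

theorem num_two {k G : ℕ} (hk : 1 ≤ k) (hG : (4 * k) ^ (2 * k + 4) ≤ G) :
    8 * k ^ 2 * (k.factorial * (2 * k * G) ^ k) ≤ G ^ (k + 1) := by
  calc 8 * k ^ 2 * (k.factorial * (2 * k * G) ^ k)
      ≤ 8 * k ^ 2 * (k ^ k * (2 * k * G) ^ k) := by
        refine Nat.mul_le_mul_left _ (Nat.mul_le_mul_right _ (Nat.factorial_le_pow k))
    _ = 8 * k ^ 2 * (k ^ k * (2 * k) ^ k) * G ^ k := by rw [mul_pow (2 * k) G]; ring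
    _ ≤ (4 * k) ^ 2 * ((4 * k) ^ k * (4 * k) ^ k) * G ^ k := by
        refine Nat.mul_le_mul_right _ (Nat.mul_le_mul ?_ (Nat.mul_le_mul
          (Nat.pow_le_pow_left (by omega) _) (Nat.pow_le_pow_left (by omega) _)))
        rw [mul_pow]
        omega
    _ ≤ G * G ^ k := by
        refine Nat.mul_le_mul_right _ (le_trans ?_ hG)
        rw [← pow_add, ← pow_add]
        exact Nat.pow_le_pow_right (by omega) (by omega)
    _ = G ^ (k + 1) := by ring

variable {k : ℕ} {p a : Fin k → ℕ} {E : Fin k → Fin k → ℕ}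

/-- an explicit bound for the logarithms of the primes -/
theorem Dat.bound (h : Dat p a E) (hk : 1 ≤ k) (i : Fin k) :
    log (p i) ≤ ((4 * k) ^ ((2 * k + 4) * (k + 3) ^ k) : ℕ) := by
  classical
  have : NeZero k := ⟨by omega⟩
  have lam2 : ∀ i, log 2 ≤ log (p i) := fun i =>
    log_le_log (by norm_num) (by exact_mod_cast (h.prime i).two_le)
  have l2 : (0.69 : ℝ) < log 2 := by
    have := log_two_gt_d9
    linarith
  have hE2 : ∀ i j, E i j ≤ 2 := by
    intro i j
    rw [← h.col j]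
    exact single_le_sum (f := fun i => E i j) (fun _ _ => Nat.zero_le _) (mem_univ i)
  obtain ⟨i0, -, hmax⟩ := exists_max_image (univ : Finset (Fin k)) (fun i => log (p i))
    ⟨0, mem_univ _⟩
  refine (hmax i (mem_univ i)).trans ?_
  obtain ⟨L, hL⟩ : ∃ L : ℝ, L = log (p i0) := ⟨_, rfl⟩
  rw [← hL]
  have hmax' : ∀ i, log (p i) ≤ L := fun i => by
    rw [hL]
    exact hmax i (mem_univ i)
  have hL0 : 0 < L := by linarith [hmax' i0, lam2 i0]
  by_contra hcon
  push Not at hcon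
  obtain ⟨G, hG⟩ : ∃ G : ℕ → ℕ, G = fun j => ((4 * k) ^ (2 * k + 4)) ^ ((k + 3) ^ j) := ⟨_, rfl⟩
  have hX1 : 1 ≤ (4 * k) ^ (2 * k + 4) := Nat.one_le_pow _ _ (by omega)
  have hGX : ∀ j, (4 * k) ^ (2 * k + 4) ≤ G j := by
    intro j
    rw [hG]
    exact Nat.le_self_pow (pow_ne_zero _ (by omega)) _
  have hG1 : ∀ j, 1 ≤ G j := fun j => hX1.trans (hGX j)
  have hGs : ∀ j, G (j + 1) = G j ^ (k + 3) := by
    intro j
    rw [hG]
    simp only
    rw [← pow_mul ((4 * k) ^ (2 * k + 4)), pow_succ (k + 3) j]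
  have hGm : Monotone G := by
    refine monotone_nat_of_le_succ fun j => ?_
    rw [hGs]
    exact Nat.le_self_pow (by omega) _
  have hGk : ((G k : ℕ) : ℝ) < L := by
    rw [hG]
    simp only
    rw [← pow_mul]
    exact hcon
  obtain ⟨C, hC⟩ : ∃ C : ℕ → Finset (Fin k), C = fun j =>
    univ.filter fun i => L ≤ log (p i) * G j := ⟨_, rfl⟩
  have memC : ∀ j i, i ∈ C j ↔ L ≤ log (p i) * G j := by
    intro j i
    rw [hC]
    simp
  have Cmono : ∀ j, C j ⊆ C (j + 1) := by
    intro j i hi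
    rw [memC] at hi ⊢
    refine hi.trans (mul_le_mul_of_nonneg_left ?_ (by linarith [lam2 i]))
    exact_mod_cast hGm (Nat.le_succ j)
  have Cne : ∀ j, i0 ∈ C j := by
    intro j
    rw [memC, ← hL]
    exact le_mul_of_one_le_right hL0.le (by exact_mod_cast hG1 j)
  have hcl : ∃ j < k, C (j + 1) = C j := by
    by_contra hcon
    push Not at hcon
    have h1 : ∀ j ≤ k, j + 1 ≤ (C j).card := by
      intro j
      induction j with
      | zero =>
        intro _
        exact card_pos.2 ⟨i0, Cne 0⟩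
      | succ j ih =>
        intro hj
        have h2 := ih (by omega)
        have h3 : C j ⊂ C (j + 1) :=
          Finset.ssubset_iff_subset_ne.2 ⟨Cmono j, fun h4 => hcon j (by omega) h4.symm⟩
        have h4 := card_lt_card h3
        omega
    have h2 := h1 k le_rfl
    have h3 := card_le_univ (C k)
    rw [Fintype.card_fin] at h3
    omega
  obtain ⟨j, hj, hjC⟩ := hcl
  have hGj0 : (0 : ℝ) < G j := by exact_mod_cast hG1 j
  have hGj1 : (0 : ℝ) < G (j + 1) := by exact_mod_cast hG1 (j + 1)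
  have hGL : ((G (j + 1) : ℕ) : ℝ) < L := by
    refine lt_of_le_of_lt ?_ hGk
    exact_mod_cast hGm hj
  have hCC : ∀ i ∈ C j, a i ≤ 2 * k * G j ∧ 16 * (2 * k * G j + 1) ^ (k + 1) ≤ p i := by
    intro i hi
    rw [memC] at hi
    have hli : 0 < log (p i) := by linarith [lam2 i]
    constructor
    · have h1 := h.log_row i
      have h2 : 0 ≤ ep (p i) (a i) := ep_nonneg (h.prime i).two_le
      have h3 : ∑ l, (E i l : ℝ) * log (p l) ≤ ∑ l : Fin k, 2 * L :=
        sum_le_sum fun l _ => mul_le_mul (by exact_mod_cast hE2 i l) (hmax' l)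
          (by linarith [lam2 l]) (by norm_num)
      rw [sum_const, nsmul_eq_mul, card_univ, Fintype.card_fin] at h3
      have h4 : (a i : ℝ) * log (p i) ≤ (2 * k * G j) * log (p i) := by
        have h5 : (k : ℝ) * (2 * L) ≤ k * (2 * (log (p i) * G j)) :=
          mul_le_mul_of_nonneg_left (by linarith) (Nat.cast_nonneg k)
        linarith
      have h5 := le_of_mul_le_mul_right h4 hli
      exact_mod_cast h5
    · have h1 : log (p i) ≤ p i := by
        have := log_le_sub_one_of_pos (by exact_mod_cast (h.prime i).pos : (0 : ℝ) < p i)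
        linarith
      have h2 : ((G (j + 1) : ℕ) : ℝ) ≤ p i * G j :=
        hGL.le.trans (hi.trans (mul_le_mul_of_nonneg_right h1 hGj0.le))
      have h3 : G (j + 1) ≤ p i * G j := by exact_mod_cast h2
      rw [hGs, pow_succ] at h3
      have h4 := Nat.le_of_mul_le_mul_right h3 (hG1 j)
      exact (num_one hk (hGX j)).trans h4
  have hTT : ∀ l, l ∉ C j → log (p l) ≤ L / G (j + 1) := by
    intro l hl
    rw [← hjC, memC] at hl
    push Not at hl
    rw [le_div_iff₀ hGj1]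
    exact hl.le
  have h1 := cluster (K := 2 * k * G j) (by
    have := hG1 j
    nlinarith) h (C j) hCC (T := L / G (j + 1)) (by positivity) hTT i0 (Cne j)
  rw [← hL] at h1
  obtain ⟨W, hW⟩ : ∃ W : ℝ, W = k * (k.factorial * ((2 * k * G j : ℕ) : ℝ) ^ k) := ⟨_, rfl⟩
  rw [← hW] at h1
  have hW0 : 0 ≤ W := by
    rw [hW]
    positivity
  have hk1 : (1 : ℝ) ≤ k := by exact_mod_cast hk
  have h2 : 8 * k * W ≤ G (j + 1) := by
    have h3 := (num_two hk (hGX j)).trans
      (Nat.pow_le_pow_right (hG1 j) (by omega : k + 1 ≤ k + 3))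
    rw [← hGs] at h3
    have h4 : ((8 * k ^ 2 * (k.factorial * (2 * k * G j) ^ k) : ℕ) : ℝ) ≤ G (j + 1) := by
      exact_mod_cast h3
    have h5 : 8 * k * W = ((8 * k ^ 2 * (k.factorial * (2 * k * G j) ^ k) : ℕ) : ℝ) := by
      rw [hW]
      push_cast
      ring
    rw [h5]
    exact h4
  have h3 : W * (2 * k * (L / G (j + 1))) ≤ L / 4 := by
    have h4 : W * (2 * k * (L / G (j + 1))) = (8 * k * W) * (L / G (j + 1)) / 4 := by ring
    rw [h4]
    have h5 : (8 * k * W) * (L / G (j + 1)) ≤ G (j + 1) * (L / G (j + 1)) :=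
      mul_le_mul_of_nonneg_right h2 (by positivity)
    rw [mul_div_cancel₀ _ hGj1.ne'] at h5
    linarith
  have h4 : 8 * W ≤ L := by
    have h5 : 8 * W ≤ 8 * k * W := by nlinarith
    linarith
  linarith

theorem num_three (k : ℕ) :
    2 * k + 4 * k * ((2 * k + 4) * (k + 3) ^ k) ≤ (k + 4) ^ (k + 4) := by
  have h1 : 1 ≤ (k + 3) ^ k := Nat.one_le_pow _ _ (by omega)
  have h2 : (k + 3) ^ k ≤ (k + 4) ^ k := Nat.pow_le_pow_left (by omega) _
  have h3 : 8 * k ^ 2 + 18 * k ≤ (k + 4) ^ 4 := by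
    have h4 : (k + 4) ^ 4 = (k + 4) ^ 2 * (k + 4) ^ 2 := by ring
    rw [h4]
    nlinarith [Nat.zero_le k, Nat.zero_le (k ^ 2)]
  calc 2 * k + 4 * k * ((2 * k + 4) * (k + 3) ^ k) ≤ (8 * k ^ 2 + 18 * k) * (k + 3) ^ k := by
        nlinarith
    _ ≤ (k + 4) ^ 4 * (k + 4) ^ k := Nat.mul_le_mul h3 h2
    _ = (k + 4) ^ (k + 4) := by ring

/-- an explicit bound for a solution with `k` prime factors -/
theorem Sol.bound_omega {n : ℕ} (h : Sol n) {k : ℕ} (hk : n.primeFactors.card = k) :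
    (n : ℝ) ≤ exp (exp (((k + 4) ^ (k + 4) : ℕ) : ℝ)) := by
  rcases Nat.eq_zero_or_pos k with h0 | h0
  · have h1 : n = 1 := by
      rw [h0, card_eq_zero, Nat.primeFactors_eq_empty] at hk
      have := h.pos
      omega
    rw [h1, Nat.cast_one]
    exact one_le_exp (exp_pos _).le
  obtain ⟨p, a, E, hd, hn⟩ := h.dat hk
  have hn0 : (0 : ℝ) < n := by exact_mod_cast h.pos
  have h1 : log n ≤ 2 * k * (((4 * k) ^ ((2 * k + 4) * (k + 3) ^ k) : ℕ) : ℝ) := by
    have h2 : (n : ℝ) ≤ ∏ i, (p i : ℝ) ^ 2 := by exact_mod_cast hn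
    have h3 := log_le_log hn0 h2
    rw [log_prod (fun j _ => pow_ne_zero _ (by exact_mod_cast (hd.prime j).ne_zero))] at h3
    refine h3.trans ?_
    calc ∑ i, log ((p i : ℝ) ^ 2) ≤
        ∑ i : Fin k, 2 * (((4 * k) ^ ((2 * k + 4) * (k + 3) ^ k) : ℕ) : ℝ) := by
          refine sum_le_sum fun i _ => ?_
          rw [log_pow]
          exact mul_le_mul_of_nonneg_left (hd.bound h0 i) (by norm_num)
      _ = 2 * k * (((4 * k) ^ ((2 * k + 4) * (k + 3) ^ k) : ℕ) : ℝ) := by
          rw [sum_const, nsmul_eq_mul, card_univ, Fintype.card_fin]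
          ring
  rw [← log_le_iff_le_exp hn0]
  refine h1.trans ?_
  have e1 : (2 * k : ℝ) ≤ exp (2 * k) := by linarith [add_one_le_exp (2 * k : ℝ)]
  have e2 : (((4 * k) ^ ((2 * k + 4) * (k + 3) ^ k) : ℕ) : ℝ) ≤
      exp (4 * k * ((2 * k + 4) * (k + 3) ^ k)) := by
    push_cast
    have h2 : (4 * k : ℝ) ≤ exp (4 * k) := by linarith [add_one_le_exp (4 * k : ℝ)]
    refine (pow_le_pow_left₀ (by positivity) h2 _).trans ?_
    rw [← exp_nat_mul]
    refine exp_le_exp.2 (le_of_eq ?_)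
    push_cast
    ring
  calc 2 * k * (((4 * k) ^ ((2 * k + 4) * (k + 3) ^ k) : ℕ) : ℝ)
      ≤ exp (2 * k) * exp (4 * k * ((2 * k + 4) * (k + 3) ^ k)) :=
        mul_le_mul e1 e2 (by positivity) (exp_pos _).le
    _ = exp (2 * k + 4 * k * ((2 * k + 4) * (k + 3) ^ k)) := (exp_add _ _).symm
    _ ≤ exp (((k + 4) ^ (k + 4) : ℕ) : ℝ) := by
        refine exp_le_exp.2 ?_
        have := num_three k
        exact_mod_cast this

/-- An explicit bound for a solution in terms of the number of odd primes whose fourth power divides it. -/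
theorem Sol.bound {n : ℕ} (h : Sol n) : (n : ℝ) ≤
    exp (exp (((3 * (F4 n).card + 18) ^ (3 * (F4 n).card + 18) : ℕ) : ℝ)) := by
  refine (h.bound_omega rfl).trans (exp_le_exp.2 (exp_le_exp.2 ?_))
  have h1 := card_primeFactors h
  have h2 : (n.primeFactors.card + 4) ^ (n.primeFactors.card + 4) ≤
      (3 * (F4 n).card + 18) ^ (3 * (F4 n).card + 18) :=
    (Nat.pow_le_pow_left (by omega) _).trans (Nat.pow_le_pow_right (by omega) (by omega))
  exact_mod_cast h2

end Pool.Agent.Dek
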