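import Pool.Agent.Dek.Compare

/-!
# The equation `σ(n) = rad(n)^2`: the linear system of the logarithms of the large primes is nonsingular
-/

namespace Pool.Agent.Dek

open Finset Real

variable {k : ℕ} {p a : Fin k → ℕ} {E : Fin k → Fin k → ℕ}

/-- a vector with a positive entry in the kernel: impossible -/
theorem sing_pos {K : ℕ} (hK : 1 ≤ K) (h : Dat p a E) (C : Finset (Fin k))
    (hC : ∀ i ∈ C, a i ≤ K ∧ 16 * (K + 1) ^ (k + 1) ≤ p i) (z : Fin k → ℝ)
    (hz : ∀ i ∈ C, (a i : ℝ) * z i = ∑ l ∈ C, (E i l : ℝ) * z l)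
    (hne : ∃ i ∈ C, 0 < z i) : False := by
  classical
  obtain ⟨η, hη⟩ : ∃ η : ℝ, η = 2 / (16 * ((K : ℝ) + 1) ^ (k + 1)) := ⟨_, rfl⟩
  have hK0 : (1 : ℝ) ≤ K := by exact_mod_cast hK
  have hη0 : 0 < η := by
    rw [hη]
    positivity
  have lam2 : ∀ i, log 2 ≤ log (p i) := fun i =>
    log_le_log (by norm_num) (by exact_mod_cast (h.prime i).two_le)
  have l2 : (0.69 : ℝ) < log 2 := by
    have := log_two_gt_d9
    linarith
  -- the multiplier
  have hPne : (C.filter fun i => 0 < z i).Nonempty := by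
    obtain ⟨i, hi, hi'⟩ := hne
    exact ⟨i, mem_filter.2 ⟨hi, hi'⟩⟩
  obtain ⟨i0, hi0, hmin⟩ := exists_min_image (C.filter fun i => 0 < z i)
    (fun i => log (p i) / z i) hPne
  rw [mem_filter] at hi0
  obtain ⟨t, ht⟩ : ∃ t : ℝ, t = log (p i0) / z i0 := ⟨_, rfl⟩
  have ht0 : 0 < t := by
    rw [ht]
    exact div_pos (by linarith [lam2 i0]) hi0.2
  obtain ⟨D, hDdef⟩ : ∃ D : Fin k → ℝ, D = fun i => log (p i) - t * z i := ⟨_, rfl⟩
  have hD : ∀ i ∈ C, 0 ≤ D i := by
    intro i hi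
    rw [hDdef]
    simp only
    by_cases hzi : 0 < z i
    · have h1 := hmin i (mem_filter.2 ⟨hi, hzi⟩)
      rw [← ht, le_div_iff₀ hzi] at h1
      linarith
    · push Not at hzi
      have h1 : t * z i ≤ 0 := mul_nonpos_of_nonneg_of_nonpos ht0.le hzi
      linarith [lam2 i]
  have hD0 : D i0 = 0 := by
    rw [hDdef]
    simp only
    rw [ht, div_mul_cancel₀ _ hi0.2.ne']
    ring
  have hep : ∀ i ∈ C, ep (p i) (a i) ≤ η := by
    intro i hi
    refine (ep_le (h.prime i).two_le).trans ?_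
    rw [hη]
    refine div_le_div_of_nonneg_left (by norm_num) (by positivity) ?_
    exact_mod_cast (hC i hi).2
  -- the identity
  have key : ∀ i ∈ C, ∑ l ∈ C, (E i l : ℝ) * D l + ∑ l ∈ univ \ C, (E i l : ℝ) * log (p l) ≤
      K * D i + η := by
    intro i hi
    have h1 := h.log_row i
    rw [← sum_sdiff (subset_univ C)] at h1
    have h4 : ∑ l ∈ C, (E i l : ℝ) * D l =
        ∑ l ∈ C, (E i l : ℝ) * log (p l) - t * ∑ l ∈ C, (E i l : ℝ) * z l := by
      rw [mul_sum, ← sum_sub_distrib, hDdef]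
      exact sum_congr rfl fun l _ => by ring
    rw [h4, ← hz i hi]
    have h5 : (a i : ℝ) * D i ≤ K * D i :=
      mul_le_mul_of_nonneg_right (by exact_mod_cast (hC i hi).1) (hD i hi)
    have h6 : D i = log (p i) - t * z i := by rw [hDdef]
    have h7 := hep i hi
    rw [h6] at h5 ⊢
    linarith
  -- the sets
  obtain ⟨δ, hδ⟩ : ∃ δ : ℕ → ℝ, δ = fun j => ((K : ℝ) + 1) ^ j * η := ⟨_, rfl⟩
  have hδs : ∀ j, K * δ j + η ≤ δ (j + 1) := by
    intro j
    rw [hδ]
    simp only
    have h1 : (1 : ℝ) ≤ (K + 1) ^ j := one_le_pow₀ (by linarith)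
    have h2 : η ≤ (K + 1) ^ j * η := le_mul_of_one_le_left hη0.le h1
    rw [pow_succ]
    nlinarith
  have hδ0 : ∀ j, 0 < δ j := by
    intro j
    rw [hδ]
    positivity
  have hδm : ∀ j, δ j ≤ δ (j + 1) := by
    intro j
    have h1 := hδs j
    have h2 := hδ0 j
    nlinarith
  have hδk : ∀ j ≤ k + 1, δ j ≤ 1 / 8 := by
    intro j hj
    have h1 : δ (k + 1) = 1 / 8 := by
      rw [hδ, hη]
      simp only
      field_simp
      norm_num
    rw [← h1]
    exact monotone_nat_of_le_succ hδm hj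
  obtain ⟨Z, hZ⟩ : ∃ Z : ℕ → Finset (Fin k), Z = fun j => C.filter fun i => D i ≤ δ j := ⟨_, rfl⟩
  have memZ : ∀ j i, i ∈ Z j ↔ i ∈ C ∧ D i ≤ δ j := by
    intro j i
    rw [hZ]
    simp
  have Zmono : ∀ j, Z j ⊆ Z (j + 1) := by
    intro j i hi
    rw [memZ] at hi ⊢
    exact ⟨hi.1, hi.2.trans (hδm j)⟩
  have Zne : ∀ j, i0 ∈ Z j := by
    intro j
    rw [memZ, hD0]
    exact ⟨hi0.1, (hδ0 j).le⟩
  -- the main step
  have step : ∀ j ≤ k, ∀ i ∈ Z j, ∀ l, E i l ≠ 0 → l ∈ Z (j + 1) := by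
    intro j hj i hi l hl
    rw [memZ] at hi
    obtain ⟨hiC, hiD⟩ := hi
    have h1 := key i hiC
    have h3 : 0 ≤ ∑ l ∈ C, (E i l : ℝ) * D l :=
      sum_nonneg fun l hl => mul_nonneg (Nat.cast_nonneg _) (hD l hl)
    have h4 : 0 ≤ ∑ l ∈ univ \ C, (E i l : ℝ) * log (p l) :=
      sum_nonneg fun l _ => mul_nonneg (Nat.cast_nonneg _) (by linarith [lam2 l])
    have h5 : K * D i + η ≤ δ (j + 1) := by
      have h6 : (K : ℝ) * D i ≤ K * δ j := mul_le_mul_of_nonneg_left hiD (by linarith)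
      linarith [hδs j]
    have hδj1 := hδk (j + 1) (by omega)
    have hEl : (1 : ℝ) ≤ E i l := by exact_mod_cast Nat.one_le_iff_ne_zero.2 hl
    have hlC : l ∈ C := by
      by_contra hlC
      have h7 : (E i l : ℝ) * log (p l) ≤ ∑ l ∈ univ \ C, (E i l : ℝ) * log (p l) :=
        single_le_sum (f := fun l => (E i l : ℝ) * log (p l))
          (fun m _ => mul_nonneg (Nat.cast_nonneg _) (by linarith [lam2 m]))
          (mem_sdiff.2 ⟨mem_univ l, hlC⟩)
      have h8 : log (p l) ≤ (E i l : ℝ) * log (p l) :=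
        le_mul_of_one_le_left (by linarith [lam2 l]) hEl
      linarith [lam2 l]
    rw [memZ]
    refine ⟨hlC, ?_⟩
    have h7 : (E i l : ℝ) * D l ≤ ∑ l ∈ C, (E i l : ℝ) * D l :=
      single_le_sum (f := fun l => (E i l : ℝ) * D l)
        (fun m hm => mul_nonneg (Nat.cast_nonneg _) (hD m hm)) hlC
    have h9 : D l ≤ (E i l : ℝ) * D l := le_mul_of_one_le_left (hD l hlC) hEl
    linarith
  -- a closed set
  have hcl : ∃ j ≤ k, Z (j + 1) = Z j := by
    by_contra hcon
    push Not at hcon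
    have h1 : ∀ j ≤ k + 1, j ≤ (Z j).card := by
      intro j
      induction j with
      | zero => intro _; exact Nat.zero_le _
      | succ j ih =>
        intro hj
        have h2 := ih (by omega)
        have h3 : Z j ⊂ Z (j + 1) :=
          Finset.ssubset_iff_subset_ne.2 ⟨Zmono j, fun h4 => hcon j (by omega) h4.symm⟩
        have h4 := card_lt_card h3
        omega
    have h2 := h1 (k + 1) le_rfl
    have h3 := card_le_univ (Z (k + 1))
    rw [Fintype.card_fin] at h3
    omega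
  obtain ⟨j, hj, hjZ⟩ := hcl
  refine no_closed (Z j) p a E ⟨i0, Zne j⟩ (fun i _ => h.prime i) ?_ (fun i _ => h.apos i) ?_ ?_
  · intro i hi h2
    have h1 := (hC i ((memZ _ _).1 hi).1).2
    rw [h2] at h1
    have h3 : 1 ≤ (K + 1) ^ (k + 1) := Nat.one_le_pow _ _ (by omega)
    omega
  · intro i hi
    rw [h.row i]
    symm
    refine prod_subset (subset_univ _) fun l _ hl => ?_
    have h1 : E i l = 0 := by
      by_contra h2
      have h3 := step j hj i hi l h2
      rw [hjZ] at h3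
      exact hl h3
    rw [h1, pow_zero]
  · intro l _
    rw [← h.col l]
    exact sum_le_sum_of_subset (subset_univ _)

/-- a nonzero vector in the kernel: impossible -/
theorem sing {K : ℕ} (hK : 1 ≤ K) (h : Dat p a E) (C : Finset (Fin k))
    (hC : ∀ i ∈ C, a i ≤ K ∧ 16 * (K + 1) ^ (k + 1) ≤ p i) (z : Fin k → ℝ)
    (hz : ∀ i ∈ C, (a i : ℝ) * z i = ∑ l ∈ C, (E i l : ℝ) * z l)
    (hne : ∃ i ∈ C, z i ≠ 0) : False := by
  obtain ⟨i, hi, hi'⟩ := hne
  rcases lt_or_gt_of_ne hi' with h1 | h1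
  · refine sing_pos hK h C hC (fun i => - z i) (fun i hi => ?_) ⟨i, hi, neg_pos.2 h1⟩
    rw [mul_neg, hz i hi, ← sum_neg_distrib]
    exact sum_congr rfl fun l _ => by ring
  · exact sing_pos hK h C hC z hz ⟨i, hi, h1⟩

/-- The large primes are bounded in terms of the other ones. -/
theorem cluster {K : ℕ} (hK : 2 ≤ K) (h : Dat p a E) (C : Finset (Fin k))
    (hC : ∀ i ∈ C, a i ≤ K ∧ 16 * (K + 1) ^ (k + 1) ≤ p i) {T : ℝ} (hT0 : 0 ≤ T)
    (hT : ∀ l, l ∉ C → log (p l) ≤ T) (i : Fin k) (hi : i ∈ C) :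
    log (p i) ≤ k * (k.factorial * (K : ℝ) ^ k) * (2 * k * T + 1) := by
  classical
  obtain ⟨M, hM⟩ : ∃ M : Matrix {i // i ∈ C} {i // i ∈ C} ℤ, M = Matrix.of
    fun i l : {i // i ∈ C} => (if i = l then (a i : ℤ) else 0) - (E i l : ℤ) := ⟨_, rfl⟩
  have hE2 : ∀ i j, E i j ≤ 2 := by
    intro i j
    rw [← h.col j]
    exact single_le_sum (f := fun i => E i j) (fun _ _ => Nat.zero_le _) (mem_univ i)
  have hMapp : ∀ i l, M i l = (if i = l then (a i : ℤ) else 0) - (E i l : ℤ) := by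
    intro i l
    rw [hM, Matrix.of_apply]
  have hmul : ∀ (v : {i // i ∈ C} → ℤ) (i : {i // i ∈ C}),
      M.mulVec v i = a i * v i - ∑ l : {i // i ∈ C}, (E i l : ℤ) * v l := by
    intro v i
    simp only [Matrix.mulVec, dotProduct, hMapp, sub_mul, sum_sub_distrib, ite_mul, zero_mul,
      sum_ite_eq, mem_univ, if_true]
  have hdet : M.det ≠ 0 := by
    intro hdet
    obtain ⟨v, hv, hv'⟩ := Matrix.exists_mulVec_eq_zero_iff.2 hdet
    obtain ⟨j, hj⟩ := Function.ne_iff.1 hv
    refine sing (by omega) h C hC (fun i => if hi : i ∈ C then (v ⟨i, hi⟩ : ℝ) else 0) ?_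
      ⟨j, j.2, ?_⟩
    · intro i hi
      have h1 := congrFun hv' ⟨i, hi⟩
      rw [hmul] at h1
      have h2 : ((a i : ℤ) * v ⟨i, hi⟩ : ℝ) = ∑ l : {i // i ∈ C}, ((E i l : ℤ) * v l : ℝ) := by
        have h3 : (a i : ℤ) * v ⟨i, hi⟩ = ∑ l : {i // i ∈ C}, (E i l : ℤ) * v l := by
          simpa [sub_eq_zero] using h1
        exact_mod_cast h3
      simp only [hi, dif_pos]
      rw [← sum_coe_sort C]
      push_cast at h2
      rw [h2]
      exact sum_congr rfl fun l _ => by simp
    · simp only [j.2, dif_pos]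
      exact_mod_cast hj
  -- Cramer
  obtain ⟨b, hb⟩ : ∃ b : {i // i ∈ C} → ℝ, b = fun i : {i // i ∈ C} =>
    ∑ l ∈ univ \ C, (E i l : ℝ) * log (p l) - ep (p i) (a i) := ⟨_, rfl⟩
  have hbabs : ∀ i, |b i| ≤ 2 * k * T + 1 := by
    intro i
    have h1 : 0 ≤ ep (p i) (a i) := ep_nonneg (h.prime i).two_le
    have h2 : ep (p i) (a i) ≤ 1 := by
      refine (ep_le (h.prime i).two_le).trans ?_
      have : (2 : ℝ) ≤ p i := by exact_mod_cast (h.prime i).two_le
      rw [div_le_one (by linarith)]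
      exact this
    have h3 : 0 ≤ ∑ l ∈ univ \ C, (E i l : ℝ) * log (p l) :=
      sum_nonneg fun l _ => mul_nonneg (Nat.cast_nonneg _) (log_nonneg (by
        exact_mod_cast (h.prime l).one_le))
    have h4 : ∑ l ∈ univ \ C, (E i l : ℝ) * log (p l) ≤ 2 * k * T := by
      calc ∑ l ∈ univ \ C, (E i l : ℝ) * log (p l) ≤ ∑ l ∈ univ \ C, 2 * T := by
            refine sum_le_sum fun l hl => ?_
            exact mul_le_mul (by exact_mod_cast hE2 i l) (hT l (mem_sdiff.1 hl).2)
              (log_nonneg (by exact_mod_cast (h.prime l).one_le)) (by norm_num)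
        _ = ((univ \ C).card : ℝ) * (2 * T) := by rw [sum_const, nsmul_eq_mul]
        _ ≤ (k : ℝ) * (2 * T) := by
            refine mul_le_mul_of_nonneg_right ?_ (by linarith)
            have := card_le_univ (univ \ C)
            rw [Fintype.card_fin] at this
            exact_mod_cast this
        _ = 2 * k * T := by ring
    rw [hb, abs_le]
    constructor <;> simp only <;> linarith
  obtain ⟨v, hv⟩ : ∃ v : {i // i ∈ C} → ℝ, v = fun i : {i // i ∈ C} => log (p i) := ⟨_, rfl⟩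
  obtain ⟨R, hR⟩ : ∃ R : Matrix {i // i ∈ C} {i // i ∈ C} ℝ, R = M.map (Int.castRingHom ℝ) := ⟨_, rfl⟩
  have hRv : R.mulVec v = b := by
    funext i
    have h1 := h.log_row i
    rw [← sum_sdiff (subset_univ C)] at h1
    have h2 : R.mulVec v i = a i * v i - ∑ l : {i // i ∈ C}, (E i l : ℝ) * v l := by
      have h3 : ∀ l, R i l = (if i = l then (a i : ℝ) else 0) - (E i l : ℝ) := by
        intro l
        rw [hR, Matrix.map_apply, hMapp]
        split_ifs <;> simp
      simp only [Matrix.mulVec, dotProduct, h3, sub_mul, sum_sub_distrib, ite_mul, zero_mul,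
        sum_ite_eq, mem_univ, if_true]
    rw [h2, hb, hv]
    simp only
    have h3 : ∑ l : {i // i ∈ C}, (E i l : ℝ) * log (p l) = ∑ l ∈ C, (E i l : ℝ) * log (p l) :=
      sum_coe_sort C (fun l => (E i l : ℝ) * log (p l))
    rw [h3]
    linarith
  have hdetR : R.det = (M.det : ℝ) := by
    rw [hR]
    exact (RingHom.map_det (Int.castRingHom ℝ) M).symm
  have hcr : R.adjugate.mulVec b = fun i => (M.det : ℝ) * v i := by
    rw [← hRv, Matrix.mulVec_mulVec, Matrix.adjugate_mul, Matrix.smul_mulVec, Matrix.one_mulVec,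
      hdetR]
    rfl
  have hcard : Fintype.card {i // i ∈ C} ≤ k := by
    have := card_le_univ C
    rw [Fintype.card_fin] at this
    simpa using this
  have hK1 : (1 : ℝ) ≤ K := by exact_mod_cast (by omega : 1 ≤ K)
  have hadj : ∀ i j, |R.adjugate i j| ≤ k.factorial * (K : ℝ) ^ k := by
    intro i j
    rw [Matrix.adjugate_apply]
    have h1 := Matrix.det_le (A := R.updateRow j (Pi.single i 1)) (abv := AbsoluteValue.abs)
      (x := (K : ℝ)) (by
        intro s t
        change |R.updateRow j (Pi.single i 1) s t| ≤ (K : ℝ)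
        by_cases hs : s = j
        · rw [hs, Matrix.updateRow_self]
          by_cases hit : t = i
          · rw [hit, Pi.single_eq_same, abs_one]
            exact hK1
          · rw [Pi.single_eq_of_ne hit, abs_zero]
            linarith
        · rw [Matrix.updateRow_ne hs, hR, Matrix.map_apply, hMapp]
          have h2 : |(if s = t then (a s : ℤ) else 0) - (E s t : ℤ)| ≤ (K : ℤ) := by
            have h3 := hE2 s t
            have h4 := (hC s s.2).1
            rw [abs_le]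
            split_ifs <;> constructor <;> omega
          have h3 : (|((if s = t then (a s : ℤ) else 0) - (E s t : ℤ))| : ℤ) ≤ (K : ℤ) := h2
          change |(((if s = t then (a s : ℤ) else 0) - (E s t : ℤ) : ℤ) : ℝ)| ≤ (K : ℝ)
          exact_mod_cast h3)
    have h2 : |(R.updateRow j (Pi.single i 1)).det| ≤
        (Fintype.card {i // i ∈ C}).factorial • (K : ℝ) ^ Fintype.card {i // i ∈ C} := h1
    refine h2.trans ?_
    rw [nsmul_eq_mul]
    refine mul_le_mul (by exact_mod_cast Nat.factorial_le hcard) (pow_le_pow_right₀ hK1 hcard)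
      (by positivity) (by positivity)
  have h1 := congrFun hcr ⟨i, hi⟩
  simp only [Matrix.mulVec, dotProduct] at h1
  have h2 : (1 : ℝ) ≤ |(M.det : ℝ)| := by
    have := Int.one_le_abs hdet
    exact_mod_cast this
  have h3 : v ⟨i, hi⟩ = log (p i) := by rw [hv]
  have h4 : 0 ≤ log (p i) := log_nonneg (by exact_mod_cast (h.prime i).one_le)
  calc log (p i) ≤ |(M.det : ℝ)| * log (p i) := le_mul_of_one_le_left h4 h2
    _ = |∑ j, R.adjugate ⟨i, hi⟩ j * b j| := by
        rw [h1, h3, abs_mul, abs_of_nonneg h4]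
    _ ≤ ∑ j, |R.adjugate ⟨i, hi⟩ j * b j| := abs_sum_le_sum_abs _ _
    _ ≤ ∑ j : {i // i ∈ C}, k.factorial * (K : ℝ) ^ k * (2 * k * T + 1) := by
        refine sum_le_sum fun j _ => ?_
        rw [abs_mul]
        exact mul_le_mul (hadj _ _) (hbabs j) (abs_nonneg _) (by positivity)
    _ = (Fintype.card {i // i ∈ C} : ℝ) * (k.factorial * (K : ℝ) ^ k * (2 * k * T + 1)) := by
        rw [sum_const, nsmul_eq_mul, card_univ]
    _ ≤ (k : ℝ) * (k.factorial * (K : ℝ) ^ k * (2 * k * T + 1)) := by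
        refine mul_le_mul_of_nonneg_right (by exact_mod_cast hcard) ?_
        have : 0 ≤ 2 * k * T := by positivity
        positivity
    _ = k * (k.factorial * (K : ℝ) ^ k) * (2 * k * T + 1) := by ring

end Pool.Agent.Dek
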